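import Pool.Agent.Helper8K9.DG.Mot
import Pool.Agent.R389.Defs

/-!
# Comparison of the values at two integers
-/

set_option autoImplicit false

namespace Pool.Agent.Helper61K9.CW

open Matrix Filter Topology NumberField Pool.Agent.Helper8K9.DG

variable {QA : Type} [Field QA] [CharZero QA] {KK : Type} [Field KK]

/-- the L-functions of `M ⊗ ρ` have finite values at `m` if those of `M ⊗ ρ'` have finite values at `m'`,
and then the normalized values `L(m, M ⊗ ρ) / ((2 π i) ^ (m d n) c^ε(M ⊗ ρ))` and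
`L(m', M ⊗ ρ') / ((2 π i) ^ (m' d n) c^ε'(M ⊗ ρ'))`, where `ε`, `ε'` are the signs of `(-1) ^ m` and
`(-1) ^ m'`, differ by a factor in `E'` -/
def SameRatioAt {E : Type} [Field E] {d : ℕ} (M : Motive QA KK E d) (ι : QA →+* ℂ) (c : QA ≃ₐ[ℚ] QA)
    (m m' : ℤ) {E' : Type} [Field E'] [Algebra E E'] {n : Type} [Fintype n] [DecidableEq n]
    (ρ ρ' : (QA ≃ₐ[ℚ] QA) →* Matrix n n E') : Prop :=
  ∀ L L' Ω Ω', IsLFunction M ι ρ L → IsLFunction M ι ρ' L' →
    IsPeriod M ι c ρ ((-1) ^ m) Ω → IsPeriod M ι c ρ' ((-1) ^ m') Ω' →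
    ∃ e : E', ∀ τ a', Tendsto (L' τ) (𝓝[≠] (m' : ℂ)) (𝓝 a') →
      ∃ a, Tendsto (L τ) (𝓝[≠] (m : ℂ)) (𝓝 a) ∧
        a * ((2 * Real.pi * Complex.I) ^ (m' * (d * Fintype.card n)) * Ω' τ)
          = ι (τ e) * (a' * ((2 * Real.pi * Complex.I) ^ (m * (d * Fintype.card n)) * Ω τ))

/-- `(-1) ^ m ψ` and `(-1) ^ m' ψ'` have the same values at the conjugates of `c` in `U` (for the Galois
group `U` of a number field: the same signs at the real places) -/
def TwistedSigns {G E' : Type} [Group G] [Field E'] (c : G) (U : Subgroup G) (m m' : ℤ)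
    (ψ ψ' : U →* E'ˣ) : Prop :=
  ∀ (g : G) (h : g * c * g⁻¹ ∈ U), (-1) ^ m * ψ ⟨g * c * g⁻¹, h⟩ = (-1) ^ m' * ψ' ⟨g * c * g⁻¹, h⟩

variable [IsAlgClosed QA] [Algebra.IsAlgebraic ℚ QA]

open Classical in
/-- **The periods at `m` and at `m'` are the same**: for all number fields `K` that are solvable over a
totally real subfield and all characters `ψ`, `ψ'` of finite order of the Galois group of `K`, with values
in an extension `E'` of `E`, such that `(-1) ^ m ψ` and `(-1) ^ m' ψ'` have the same signs at the real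
places of `K`, the normalized values of the L-functions of `M ⊗ Ind ψ` at `m` and of `M ⊗ Ind ψ'` at `m'`
differ by a factor in `E'` -/
def SamePeriods {E : Type} [Field E] {d : ℕ} (M : Motive QA KK E d) (ι : QA →+* ℂ)
    (c : QA ≃ₐ[ℚ] QA) (m m' : ℤ) : Prop :=
  ∀ (E' : Type) [Field E'] [NumberField E'] [Algebra E E'] (K : IntermediateField ℚ QA)
    [FiniteDimensional ℚ K], IsSolvableOverReal c K → ∀ ψ ψ' : K.fixingSubgroup →* E'ˣ,
    IsFiniteOver K ψ → IsFiniteOver K ψ' → TwistedSigns c K.fixingSubgroup m m' ψ ψ' →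
    SameRatioAt M ι c m m' (induced K ψ) (induced K ψ')

/-- M-groups: `G` is solvable, and every irreducible complex representation of `G` is induced from a
one-dimensional representation of a subgroup (for example nilpotent, supersolvable or metabelian groups) -/
def IsMonomialGroup (G : Type) [Group G] : Prop :=
  Group.IsSolvable G ∧ ∀ (n : ℕ) (ρ : Representation ℂ G (Fin n → ℂ)), ρ.IsIrreducible →
    ∃ (U : Subgroup G) (ψ : U →* ℂˣ),
      ρ.character = Pool.Agent.R389.ind U (fun u => ((ψ u : ℂˣ) : ℂ))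

end Pool.Agent.Helper61K9.CW
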