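import Pool.Agent.Helper8K9.DG.Mot

/-!
# The images of complex conjugation in monomial representations over fields that are solvable over
totally real fields
-/

set_option autoImplicit false
set_option linter.unusedSectionVars false

namespace Pool.Agent.Helper61K9.CW


variable {QA : Type} [Field QA] [CharZero QA] [IsAlgClosed QA] [Algebra.IsAlgebraic ℚ QA]
  {KK : Type} [Field KK] [IsAlgClosed KK]

open Matrix Pool.Agent.Helper8K9.DG
open scoped commutatorElement

theorem conj_fixing {K : IntermediateField ℚ QA} {τ : K →ₐ[ℚ] QA} {γ : (QA ≃ₐ[ℚ] QA)}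
    (h : (extend K τ)⁻¹ * γ * extend K τ ∈ K.fixingSubgroup) (x : K) : γ (τ x) = τ x :=
  (mem_fixing K τ τ γ).mp h x

open Classical in
/-- elements that are in all the conjugates of the Galois group of `K` act by diagonal matrices -/
theorem induced_comm {E' : Type} [Field E'] (K : IntermediateField ℚ QA) [FiniteDimensional ℚ K]
    (ψ : K.fixingSubgroup →* E'ˣ) {γ γ' : (QA ≃ₐ[ℚ] QA)} (h : ∀ g : (QA ≃ₐ[ℚ] QA), g⁻¹ * γ * g ∈ K.fixingSubgroup)
    (h' : ∀ g : (QA ≃ₐ[ℚ] QA), g⁻¹ * γ' * g ∈ K.fixingSubgroup) :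
    induced K ψ (γ * γ' * γ⁻¹ * γ'⁻¹) = 1 := by
  have key : ∀ {δ : (QA ≃ₐ[ℚ] QA)}, (∀ g : (QA ≃ₐ[ℚ] QA), g⁻¹ * δ * g ∈ K.fixingSubgroup) →
      ∃ v : (K →ₐ[ℚ] QA) → E', induced K ψ δ = diagonal v := by
    intro δ hδ
    refine ⟨fun τ => induced K ψ δ τ τ, ?_⟩
    ext τ τ'
    by_cases hτ : τ = τ'
    · subst hτ
      rw [diagonal_apply_eq]
    · rw [diagonal_apply_ne _ hτ]
      change inducedMatrix K ψ δ τ τ' = 0
      rw [inducedMatrix, Matrix.of_apply, dif_neg]
      intro h1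
      rw [mem_fixing] at h1
      apply hτ
      ext x
      rw [← h1 x, conj_fixing (hδ (extend K τ'))]
  obtain ⟨v, hv⟩ := key h
  obtain ⟨v', hv'⟩ := key h'
  have h1 : induced K ψ (γ * γ') = induced K ψ (γ' * γ) := by
    rw [map_mul, map_mul, hv, hv', diagonal_mul_diagonal, diagonal_mul_diagonal]
    congr 1
    funext x
    exact mul_comm _ _
  have h2 : γ * γ' * γ⁻¹ * γ'⁻¹ = (γ * γ') * (γ' * γ)⁻¹ := by group
  rw [h2, map_mul, h1, ← map_mul, mul_inv_cancel, map_one]

/-- the derived series of the normal closure of complex conjugation -/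
theorem derived_conj (c : (QA ≃ₐ[ℚ] QA)) (K : IntermediateField ℚ QA) (hK : IsSolvableOverReal c K) :
    ∃ k, ∀ n ∈ derivedSeries (Subgroup.normalClosure {c}) k, ∀ g : (QA ≃ₐ[ℚ] QA),
      g⁻¹ * (n : (QA ≃ₐ[ℚ] QA)) * g ∈ K.fixingSubgroup := by
  obtain ⟨K₀, F, h1, h2, h3, h4, hn, hsol⟩ := hK
  set N : Subgroup (QA ≃ₐ[ℚ] QA) := Subgroup.normalClosure {c} with hN
  have hNn : N.Normal := Subgroup.normalClosure_normal
  have hNK : N ≤ K₀.fixingSubgroup := by
    rw [hN, Subgroup.normalClosure, Subgroup.closure_le]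
    intro x hx
    rw [Group.mem_conjugatesOfSet_iff] at hx
    obtain ⟨a, ha, hax⟩ := hx
    rw [Set.mem_singleton_iff] at ha
    subst ha
    obtain ⟨g, rfl⟩ := isConj_iff.mp hax
    exact h4 g
  obtain ⟨k, hk⟩ := hsol.solvable
  have hFK : F.fixingSubgroup ≤ K.fixingSubgroup := IntermediateField.fixingSubgroup_antitone h2
  refine ⟨k, fun n hn' g => hFK ?_⟩
  let f : N →* K₀.fixingSubgroup :=
    { toFun := fun x => ⟨g⁻¹ * (x : (QA ≃ₐ[ℚ] QA)) * g, hNK (by
        have := hNn.conj_mem x x.2 g⁻¹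
        rwa [inv_inv] at this)⟩
      map_one' := Subtype.ext (by simp)
      map_mul' := fun x y => Subtype.ext (by
        change g⁻¹ * ((x : (QA ≃ₐ[ℚ] QA)) * (y : (QA ≃ₐ[ℚ] QA))) * g = g⁻¹ * (x : (QA ≃ₐ[ℚ] QA)) * g * (g⁻¹ * (y : (QA ≃ₐ[ℚ] QA)) * g)
        group) }
  have h5 := map_derivedSeries_le_derivedSeries
    ((QuotientGroup.mk' (F.fixingSubgroup.subgroupOf K₀.fixingSubgroup)).comp f) k
  rw [hk] at h5
  have h6 := h5 ⟨n, hn', rfl⟩
  rw [Subgroup.mem_bot] at h6
  have h7 := (QuotientGroup.eq_one_iff (f n)).mp h6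
  exact Subgroup.mem_subgroupOf.mp h7

theorem map_closure (c : (QA ≃ₐ[ℚ] QA)) {G : Type} [Group G] (π : (QA ≃ₐ[ℚ] QA) →* G) (hπ : Function.Surjective π) :
    (Subgroup.normalClosure {c}).map π = Subgroup.normalClosure {π c} := by
  rw [Subgroup.map_normalClosure _ _ hπ, Set.image_singleton]

/-- the normal closure of complex conjugation in the Galois group of a field that is solvable over a
totally real field -/
theorem solvable_field (c : (QA ≃ₐ[ℚ] QA)) (K : IntermediateField ℚ QA) (hK : IsSolvableOverReal c K)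
    {G : Type} [Group G] (π : (QA ≃ₐ[ℚ] QA) →* G) (hπ : Function.Surjective π)
    (hker : ∀ γ ∈ K.fixingSubgroup, π γ = 1) :
    Group.IsSolvable (Subgroup.normalClosure {π c}) := by
  obtain ⟨k, hk⟩ := derived_conj c K hK
  rw [← map_closure c π hπ]
  refine ⟨⟨k, ?_⟩⟩
  have hr := π.subgroupMap_surjective (Subgroup.normalClosure {c})
  rw [← map_derivedSeries_eq hr, eq_bot_iff, Subgroup.map_le_iff_le_comap, MonoidHom.comap_bot]
  intro a ha
  rw [MonoidHom.mem_ker]
  apply Subtype.ext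
  have h1 := hk a ha 1
  rw [inv_one, one_mul, mul_one] at h1
  exact hker _ h1

open Classical in
/-- the normal closure of the image of complex conjugation is solvable -/
theorem solvable_closure {E' : Type} [Field E'] (c : (QA ≃ₐ[ℚ] QA)) (K : IntermediateField ℚ QA)
    [FiniteDimensional ℚ K] (hK : IsSolvableOverReal c K) (ψ : K.fixingSubgroup →* E'ˣ)
    {G : Type} [Group G] (π : (QA ≃ₐ[ℚ] QA) →* G) (hπ : Function.Surjective π)
    (hker : ∀ γ, induced K ψ γ = 1 → π γ = 1) :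
    Group.IsSolvable (Subgroup.normalClosure {π c}) := by
  obtain ⟨k, hk⟩ := derived_conj c K hK
  rw [← map_closure c π hπ]
  refine ⟨⟨k + 1, ?_⟩⟩
  have hr := π.subgroupMap_surjective (Subgroup.normalClosure {c})
  rw [← map_derivedSeries_eq hr, eq_bot_iff, derivedSeries_succ, Subgroup.map_le_iff_le_comap,
    MonoidHom.comap_bot, Subgroup.commutator_le]
  intro a ha b hb
  rw [MonoidHom.mem_ker]
  apply Subtype.ext
  change π ((⁅a, b⁆ : Subgroup.normalClosure {c}) : (QA ≃ₐ[ℚ] QA)) = 1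
  apply hker
  exact induced_comm K ψ (fun g => hk a ha g) (fun g => hk b hb g)

end Pool.Agent.Helper61K9.CW
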