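import Pool.Agent.Helper61K9.CW.Mon
import Pool.Agent.Helper61K9.CW.Def
import Pool.Agent.Helper61K9.CW.Sol
import Pool.Agent.Helper8K9.DG.Diff
import Pool.Agent.Helper8K9.DG.Pex
import Pool.Agent.Helper8K9.DG.Cor

/-!
# Monomial representations over fields that are solvable over totally real fields
-/

set_option autoImplicit false
set_option linter.unusedSectionVars false

namespace Pool.Agent.Helper61K9.CW

open Pool.Agent.Helper61K9.CV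

variable {QA : Type} [Field QA] [CharZero QA] [IsAlgClosed QA] [Algebra.IsAlgebraic ℚ QA]
  {KK : Type} [Field KK] [IsAlgClosed KK]

open Matrix Polynomial Filter Topology NumberField Pool.Agent.Helper8K9.DG Pool.Agent.R389

/-- the normal closure of a number field -/
theorem exists_normal (F : IntermediateField ℚ QA) [FiniteDimensional ℚ F] :
    ∃ F' : IntermediateField ℚ QA, F ≤ F' ∧ FiniteDimensional ℚ F' ∧ Normal ℚ F' := by
  have h : IsGalois ℚ QA := IsAlgClosure.isGalois ℚ QA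
  have : Normal ℚ QA := h.to_normal
  exact ⟨IntermediateField.normalClosure ℚ F QA, F.le_normalClosure, inferInstance,
    normalClosure.normal ℚ F QA⟩

theorem conj_normal (F : IntermediateField ℚ QA) [Normal ℚ F] {γ : (QA ≃ₐ[ℚ] QA)} (h : γ ∈ F.fixingSubgroup)
    (g : (QA ≃ₐ[ℚ] QA)) : g * γ * g⁻¹ ∈ F.fixingSubgroup := by
  have h1 : F.fixingSubgroup.Normal := by
    have h : IsGalois ℚ QA := IsAlgClosure.isGalois ℚ QA
    have h3 : IsGalois ℚ F := { }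
    exact @IsGalois.fixingSubgroup_normal_of_isGalois ℚ QA _ _ _ F h h3
  exact h1.conj_mem γ h g

section

variable {E' : Type} [Field E'] {K : IntermediateField ℚ QA} [FiniteDimensional ℚ K]

open Classical in
/-- the induced representation has finite image -/
theorem induced_fin {ψ : K.fixingSubgroup →* E'ˣ} (hψ : IsFiniteOver K ψ) :
    IsFinite ⊤ (induced K ψ) := by
  obtain ⟨F, hF, h⟩ := hψ
  obtain ⟨F', hle, hF', hn⟩ := exists_normal (F ⊔ K)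
  refine ⟨F', hF', le_top, fun γ hγ => ?_⟩
  have h1 : ∀ g : (QA ≃ₐ[ℚ] QA), g⁻¹ * γ * g ∈ F'.fixingSubgroup := by
    intro g
    have := conj_normal F' hγ g⁻¹
    rwa [inv_inv] at this
  have h2 : F'.fixingSubgroup ≤ K.fixingSubgroup :=
    IntermediateField.fixingSubgroup_antitone (le_sup_right.trans hle)
  have h3 : F'.fixingSubgroup ≤ F.fixingSubgroup :=
    IntermediateField.fixingSubgroup_antitone (le_sup_left.trans hle)
  ext τ τ'
  change inducedMatrix K ψ γ τ τ' = _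
  rw [inducedMatrix, Matrix.of_apply]
  by_cases hτ : τ = τ'
  · subst hτ
    rw [Matrix.one_apply_eq, dif_pos (h2 (h1 _)), h ⟨_, h2 (h1 _)⟩ (h3 (h1 _)), Units.val_one]
  · rw [Matrix.one_apply_ne hτ, dif_neg]
    intro h4
    rw [mem_fixing] at h4
    apply hτ
    ext x
    rw [← h4 x, conj_fixing (h2 (h1 (extend K τ')))]

/-- the twist of `ψ` by a power of a quadratic character -/
noncomputable def tw (χ₀ : (QA ≃ₐ[ℚ] QA) →* ℤˣ) (k : ℤ) (ψ : K.fixingSubgroup →* E'ˣ) :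
    K.fixingSubgroup →* E'ˣ :=
  ψ * ((Units.map (Int.castRingHom E').toMonoidHom).comp (χ₀.comp K.fixingSubgroup.subtype)) ^ k

omit [FiniteDimensional ℚ K] in
theorem tw_finite {χ₀ : (QA ≃ₐ[ℚ] QA) →* ℤˣ} (hχ : IsFinite ⊤ χ₀) (k : ℤ) {ψ : K.fixingSubgroup →* E'ˣ}
    (hψ : IsFiniteOver K ψ) : IsFiniteOver K (tw χ₀ k ψ) := by
  obtain ⟨F, hF, h⟩ := hψ
  obtain ⟨F', hF', -, h'⟩ := hχ
  refine ⟨F ⊔ F', inferInstance, fun γ hγ => ?_⟩
  have h1 : (γ : (QA ≃ₐ[ℚ] QA)) ∈ F.fixingSubgroup := IntermediateField.fixingSubgroup_antitone le_sup_left hγ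
  have h2 : (γ : (QA ≃ₐ[ℚ] QA)) ∈ F'.fixingSubgroup :=
    IntermediateField.fixingSubgroup_antitone le_sup_right hγ
  change ψ γ * (Units.map (Int.castRingHom E').toMonoidHom (χ₀ γ)) ^ k = 1
  rw [h γ h1, h' _ h2, map_one, _root_.one_zpow, one_mul]

omit [FiniteDimensional ℚ K] in
theorem tw_conj {χ₀ : (QA ≃ₐ[ℚ] QA) →* ℤˣ} {c : (QA ≃ₐ[ℚ] QA)} (hχc : χ₀ c = -1) (m m' : ℤ)
    (ψ : K.fixingSubgroup →* E'ˣ) :
    TwistedSigns c K.fixingSubgroup m m' ψ (tw χ₀ (m - m') ψ) := by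
  intro g h
  change (-1) ^ m * ψ ⟨_, h⟩ = (-1) ^ m' * (ψ ⟨_, h⟩ * (Units.map (Int.castRingHom E').toMonoidHom
    (χ₀ (g * c * g⁻¹))) ^ (m - m'))
  have h1 : χ₀ (g * c * g⁻¹) = -1 := by
    rw [map_mul, map_mul, hχc, map_inv, mul_comm, ← mul_assoc, inv_mul_cancel, one_mul]
  have h2 : Units.map (Int.castRingHom E').toMonoidHom (-1) = -1 := by
    ext
    simp
  have h3 : (-1 : E'ˣ) ^ m = (-1) ^ m' * (-1) ^ (m - m') := by
    rw [← _root_.zpow_add]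
    congr 1
    ring
  rw [h1, h2, h3, mul_left_comm _ (ψ _), mul_comm (ψ _)]

end

section

variable {E : Type} [Field E] {d : ℕ} {M : Motive QA KK E d} {ι : QA →+* ℂ} {c : (QA ≃ₐ[ℚ] QA)} {m m' : ℤ}
  {E' : Type} [Field E'] [NumberField E'] [Algebra E E'] {K : IntermediateField ℚ QA}
  [FiniteDimensional ℚ K]

open Classical in
/-- monomial representations -/
theorem mon_ind (hcc : c * c = 1) (hab : AbelianTwists M ι c m') (hSP : SamePeriods M ι c m m')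
    {χ₀ : (QA ≃ₐ[ℚ] QA) →* ℤˣ} (hχ : IsFinite ⊤ χ₀) (hχc : χ₀ c = -1)
    (hD : ∀ ψ : K.fixingSubgroup →* E'ˣ, IsFiniteOver K ψ →
      DeligneConjecture M ι c m' (induced K ψ)) (hK : IsSolvableOverReal c K)
    {ψ : K.fixingSubgroup →* E'ˣ} (hψ : IsFiniteOver K ψ) :
    ∃ (ℓ : (E' →+* QA) → ℂ → ℂ) (w : (E' →+* QA) → ℂ),
      Rl M ι c m (fun γ => (induced K ψ γ).trace) ℓ w ∧
      (∀ τ z, meromorphicOrderAt (ℓ τ) z ≠ ⊤) ∧
      ∃ e : E', ∀ τ, Tendsto (ℓ τ) (𝓝[≠] (m : ℂ)) (𝓝 (ι (τ e) * w τ)) := by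
  obtain ⟨⟨ℓ, hℓ, hℓa⟩, -⟩ := hab E' K hK ψ hψ
  have hψ' := tw_finite hχ (m - m') hψ
  obtain ⟨⟨ℓ', hℓ', hℓa'⟩, -⟩ := hab E' K hK _ hψ'
  obtain ⟨Ω, hΩ⟩ := pex E d M ι c hcc E' (K →ₐ[ℚ] QA) ⊤ (induced K ψ) ((-1) ^ m) (induced_fin hψ)
  obtain ⟨Ω', hΩ'⟩ := pex E d M ι c hcc E' (K →ₐ[ℚ] QA) ⊤ (induced K (tw χ₀ (m - m') ψ))
    ((-1) ^ m') (induced_fin hψ')
  obtain ⟨e', he'⟩ := hD _ hψ' ℓ' Ω' hℓ' hΩ'
  obtain ⟨e, he⟩ := hSP E' K hK ψ _ hψ hψ' (tw_conj hχc m m' ψ) ℓ ℓ' Ω Ω' hℓ hℓ' hΩ hΩ'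
  refine ⟨ℓ, fun τ => pw d m (Fintype.card (K →ₐ[ℚ] QA)) * Ω τ, ⟨_, inferInstance, inferInstance,
    induced K ψ, induced_fin hψ, fun γ => rfl, hℓ, Ω, hΩ, fun τ => rfl⟩, fun τ z => ?_, e * e',
    fun τ => ?_⟩
  · obtain ⟨Q, hQ, h1⟩ := hℓ
    obtain ⟨a, ha, hlim⟩ := hℓa τ
    have h2 : meromorphicOrderAt (ℓ τ) (m' : ℂ) ≠ ⊤ := by
      have h3 := (tendsto_ne_zero_iff_meromorphicOrderAt_eq_zero
        ((h1 τ).1 (m' : ℂ) (Set.mem_univ _))).mp ⟨a, ha, hlim⟩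
      rw [h3]
      exact WithTop.zero_ne_top
    exact (h1 τ).1.meromorphicOrderAt_ne_top_of_isPreconnected isPreconnected_univ
      (Set.mem_univ (m' : ℂ)) (Set.mem_univ z) h2
  · obtain ⟨a, ha, h1⟩ := he τ _ (he' τ)
    have h2 : a = ι (τ (e * e')) * (pw d m (Fintype.card (K →ₐ[ℚ] QA)) * Ω τ) := by
      have hne : (2 * Real.pi * Complex.I : ℂ) ^ (m' * ((d : ℤ) * (Fintype.card (K →ₐ[ℚ] QA) : ℤ)))
          * Ω' τ ≠ 0 := mul_ne_zero (pw_ne d m' _) (pne E d M ι c E' _ _ _ Ω' hΩ' τ)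
      apply mul_right_cancel₀ hne
      rw [h1, map_mul, map_mul, pw]
      ring
    rw [← h2]
    exact ha

end

end Pool.Agent.Helper61K9.CW
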