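import Pool.Agent.Helper61K9.CW.Dir

/-!
# Deligne's conjecture when there are few zeros, over a field with enough roots of unity
-/

set_option autoImplicit false
set_option linter.unusedSectionVars false

namespace Pool.Agent.Helper61K9.CW

open Pool.Agent.Helper61K9.CV

variable {QA : Type} [Field QA] [CharZero QA] [IsAlgClosed QA] [Algebra.IsAlgebraic ℚ QA]
  {KK : Type} [Field KK] [IsAlgClosed KK]

open Matrix Polynomial Filter Topology NumberField Pool.Agent.Helper8K9.DG Pool.Agent.R389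
  Pool.Agent.H541R3.ART Pool.Agent.W446.AS

section rep

variable {G : Type} [Group G] [Finite G] {E' : Type} [Field E'] {n : Type} [Fintype n]
  [DecidableEq n]

/-- the representation given by matrices -/
noncomputable def matRep (r : G →* Matrix n n E') : Representation E' G (n → E') where
  toFun g := Matrix.toLin' (r g)
  map_one' := by rw [map_one, Matrix.toLin'_one]; rfl
  map_mul' x y := by rw [map_mul, Matrix.toLin'_mul]; rfl

theorem matRep_char (r : G →* Matrix n n E') (g : G) : (matRep r).character g = (r g).trace := by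
  change LinearMap.trace E' _ (Matrix.toLin' (r g)) = _
  rw [Matrix.trace_toLin'_eq]

theorem mat_closure (r : G →* Matrix n n E') (τ : E' →+* ℂ) :
    (fun g => τ ((r g).trace)) ∈ AddSubmonoid.closure (Irr G) := by
  have h := base_change τ (matRep r)
  have h2 : (fun g => τ ((matRep r).character g)) = fun g => τ ((r g).trace) := by
    funext g
    rw [matRep_char]
  rwa [h2] at h

/-- the matrices of a representation -/
noncomputable def repMat {W : Type} [AddCommGroup W] [Module E' W] [FiniteDimensional E' W]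
    (σ : Representation E' G W) :
    G →* Matrix (Fin (Module.finrank E' W)) (Fin (Module.finrank E' W)) E' :=
  (LinearMap.toMatrixAlgEquiv (Module.finBasis E' W)).toAlgHom.toRingHom.toMonoidHom.comp σ

theorem repMat_trace {W : Type} [AddCommGroup W] [Module E' W] [FiniteDimensional E' W]
    (σ : Representation E' G W) (g : G) : (repMat σ g).trace = σ.character g := by
  change (LinearMap.toMatrix (Module.finBasis E' W) (Module.finBasis E' W) (σ g)).trace
    = LinearMap.trace E' W (σ g)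
  rw [LinearMap.trace_eq_matrix_trace E' (Module.finBasis E' W)]

theorem repMat_smul {W : Type} [AddCommGroup W] [Module E' W] [FiniteDimensional E' W]
    (σ : Representation E' G W) (g : G) (a : E') (h : ∀ w, σ g w = a • w) :
    repMat σ g = a • (1 : Matrix _ _ E') := by
  have h1 : σ g = a • LinearMap.id := by
    ext w
    exact h w
  change LinearMap.toMatrixAlgEquiv (Module.finBasis E' W) (σ g) = _
  rw [h1, map_smul]
  congr 1
  exact map_one (LinearMap.toMatrixAlgEquiv (Module.finBasis E' W))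

theorem ind_closure (U : Subgroup G) (ψ : U →* E'ˣ) (τ : E' →+* ℂ) :
    (fun g => τ (ind U (fun u => ((ψ u : E'ˣ) : E')) g)) ∈ AddSubgroup.closure (Irr G) := by
  rw [ind_emb]
  exact virt_ind U (AddSubgroup.subset_closure (lin_irr _))

end rep

section

variable {E : Type} [Field E] {d : ℕ} {M : Motive QA KK E d} {ι : QA →+* ℂ} {c : (QA ≃ₐ[ℚ] QA)} {m m' : ℤ}
  {E' : Type} [Field E'] [NumberField E'] [Algebra E E'] [Algebra.IsAlgebraic E E']
  {G : Type} [Group G] [Finite G] {π : (QA ≃ₐ[ℚ] QA) →* G}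

theorem exists_rl (hcc : c * c = 1) {n : Type} [Fintype n] [DecidableEq n]
    {σ : (QA ≃ₐ[ℚ] QA) →* Matrix n n E'} (hσ : IsFinite ⊤ σ) {ℓ : (E' →+* QA) → ℂ → ℂ}
    (hℓ : IsLFunction M ι σ ℓ) : ∃ w, Rl M ι c m (fun γ => (σ γ).trace) ℓ w := by
  obtain ⟨Ω, hΩ⟩ := pex E d M ι c hcc E' n ⊤ σ ((-1) ^ m) hσ
  exact ⟨_, n, inferInstance, inferInstance, σ, hσ, fun γ => rfl, hℓ, Ω, hΩ, fun τ => rfl⟩

open Classical in
/-- orders -/
theorem Sys.order {L : (E' →+* ℂ) → (G → ℂ) → ℂ → ℂ} {P : (E' →+* ℂ) → (G → ℂ) → ℂ}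
    (hS : Sys M ι c m π L P) (hcc : c * c = 1) {K : IntermediateField ℚ QA}
    [FiniteDimensional ℚ K] (hπs : Function.Surjective π)
    (hπ : IsFinite ⊤ π)
    {U : Subgroup G} (hK : K.fixingSubgroup = U.comap π) (ψ : U →* E'ˣ)
    {ℓ : (E' →+* QA) → ℂ → ℂ} (hℓ : IsLFunction M ι (induced K (pull hK ψ)) ℓ) (τ : E' →+* QA)
    {k : (G → ℂ) → ℕ}
    (hk : IsDecomp (fun g => (ι.comp τ) (ind U (fun u => ((ψ u : E'ˣ) : E')) g)) k) :
    meromorphicOrderAt (fun s => ∏ᶠ χ ∈ Irr G, L (ι.comp τ) χ s ^ k χ) (m : ℂ)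
      = meromorphicOrderAt (ℓ τ) (m : ℂ) := by
  have hfin := induced_finite hπ hK ψ
  obtain ⟨w, hw⟩ := exists_rl (m := m) hcc hfin hℓ
  have hw' := hw.congr_f (f' := fun γ => ind U (fun u => ((ψ u : E'ˣ) : E')) (π γ))
    fun γ => Pool.Agent.Helper8K9.DG.chr E' G π hπs U K hK ψ γ
  obtain ⟨h1, -⟩ := hS _ ℓ w hw' ⟨ι.comp τ, ind_closure U ψ _⟩
  have h2 := h1 (ι.comp τ) k hk
  rw [down_comp] at h2
  exact meromorphicOrderAt_congr h2

end

end Pool.Agent.Helper61K9.CW
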