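import Pool.Agent.Helper61K9.CW.Trf
import Pool.Agent.Helper61K9.CV.Grp2

/-!
# Deligne's conjecture for the functions attached to the irreducible characters
-/

set_option autoImplicit false
set_option linter.unusedSectionVars false

namespace Pool.Agent.Helper61K9.CW

open Pool.Agent.Helper61K9.CV

variable {QA : Type} [Field QA] [CharZero QA] [IsAlgClosed QA] [Algebra.IsAlgebraic ℚ QA]
  {KK : Type} [Field KK] [IsAlgClosed KK]

open Matrix Polynomial Filter Topology NumberField Pool.Agent.Helper8K9.DG Pool.Agent.R389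
  Pool.Agent.H541R3.ART

section

variable {E : Type} [Field E] {d : ℕ} (M : Motive QA KK E d) (ι : QA →+* ℂ) (c : (QA ≃ₐ[ℚ] QA)) (m : ℤ)
  {E' : Type} [Field E'] [NumberField E'] [Algebra E E'] {G : Type} [Group G] [Finite G]
  (π : (QA ≃ₐ[ℚ] QA) →* G)

/-- the functions `L`, `P` describe the L-functions and periods of the twists of `M` -/
def Sys (L : (E' →+* ℂ) → (G → ℂ) → ℂ → ℂ) (P : (E' →+* ℂ) → (G → ℂ) → ℂ) : Prop :=
  ∀ (f : G → E') (ℓ : (E' →+* QA) → ℂ → ℂ) (w : (E' →+* QA) → ℂ),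
    Rl M ι c m (fun γ => f (π γ)) ℓ w → (∃ τ : E' →+* ℂ, (fun g => τ (f g)) ∈
      AddSubgroup.closure (Irr G)) →
    (∀ (τ : E' →+* ℂ) (k : (G → ℂ) → ℕ), IsDecomp (fun g => τ (f g)) k →
      ∀ᶠ s in 𝓝[≠] (m : ℂ), ∏ᶠ χ ∈ Irr G, L τ χ s ^ k χ = ℓ (down ι τ) s) ∧
    ∃ e : E', e ≠ 0 ∧ ∀ (τ : E' →+* ℂ) (k : (G → ℂ) → ℕ), IsDecomp (fun g => τ (f g)) k →
      ∏ᶠ χ ∈ Irr G, P τ χ ^ k χ = τ e * w (down ι τ)

variable {M ι c m π}

theorem sub_closure {f : G → ℂ} (h : f ∈ AddSubmonoid.closure (Irr G)) :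
    f ∈ AddSubgroup.closure (Irr G) := by
  have h3 : AddSubmonoid.closure (Irr G) ≤ (AddSubgroup.closure (Irr G)).toAddSubmonoid := by
    rw [AddSubmonoid.closure_le]
    exact AddSubgroup.subset_closure
  exact h3 h

/-- from the functions to the motive -/
theorem Sys.to {L : (E' →+* ℂ) → (G → ℂ) → ℂ → ℂ} {P : (E' →+* ℂ) → (G → ℂ) → ℂ}
    (hS : Sys M ι c m π L P) {n : Type} [Fintype n] [DecidableEq n] {σ : (QA ≃ₐ[ℚ] QA) →* Matrix n n E'}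
    (hσ : IsFinite ⊤ σ) {f : G → E'} (hf : ∀ γ, (σ γ).trace = f (π γ))
    (hv : ∀ τ : E' →+* ℂ, (fun g => τ (f g)) ∈ AddSubmonoid.closure (Irr G))
    (hD : Deligne L P (m : ℂ) f) : DeligneConjecture M ι c m σ := by
  intro ℓ Ω hℓ hΩ
  obtain ⟨e₀, he₀⟩ := hD
  have hR : Rl M ι c m (fun γ => f (π γ)) ℓ (fun τ => pw d m (Fintype.card n) * Ω τ) :=
    ⟨n, inferInstance, inferInstance, σ, hσ, hf, hℓ, Ω, hΩ, fun τ => rfl⟩
  obtain ⟨τ₁⟩ : Nonempty (E' →+* ℂ) := inferInstance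
  obtain ⟨h1, e, he, h2⟩ := hS f ℓ _ hR ⟨τ₁, sub_closure (hv τ₁)⟩
  refine ⟨e₀ * e, fun τ => ?_⟩
  obtain ⟨k, hk⟩ := decomp_of_closure (hv (ι.comp τ))
  have h3 := h1 (ι.comp τ) k hk
  have h4 := h2 (ι.comp τ) k hk
  have h5 := he₀ (ι.comp τ) k hk
  rw [down_comp] at h3 h4
  have h6 := h5.congr' h3
  rw [h4] at h6
  convert h6 using 2
  rw [map_mul, map_mul, pw]
  change _ = ι (τ e₀) * (ι (τ e) * _)
  ring

/-- from the motive to the functions -/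
theorem Sys.from {L : (E' →+* ℂ) → (G → ℂ) → ℂ → ℂ} {P : (E' →+* ℂ) → (G → ℂ) → ℂ}
    (hS : Sys M ι c m π L P) (hcc : c * c = 1) {n : Type} [Fintype n] [DecidableEq n]
    {σ : (QA ≃ₐ[ℚ] QA) →* Matrix n n E'} (hσ : IsFinite ⊤ σ) {f : G → E'} (hf : ∀ γ, (σ γ).trace = f (π γ))
    (hv : ∀ τ : E' →+* ℂ, (fun g => τ (f g)) ∈ AddSubmonoid.closure (Irr G))
    (hL : ∃ ℓ, IsLFunction M ι σ ℓ) (hD : DeligneConjecture M ι c m σ) :
    Deligne L P (m : ℂ) f := by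
  obtain ⟨ℓ, hℓ⟩ := hL
  obtain ⟨Ω, hΩ⟩ := pex E d M ι c hcc E' n ⊤ σ ((-1) ^ m) hσ
  obtain ⟨e₀, he₀⟩ := hD ℓ Ω hℓ hΩ
  have hR : Rl M ι c m (fun γ => f (π γ)) ℓ (fun τ => pw d m (Fintype.card n) * Ω τ) :=
    ⟨n, inferInstance, inferInstance, σ, hσ, hf, hℓ, Ω, hΩ, fun τ => rfl⟩
  obtain ⟨τ₁⟩ : Nonempty (E' →+* ℂ) := inferInstance
  obtain ⟨h1, e, he, h2⟩ := hS f ℓ _ hR ⟨τ₁, sub_closure (hv τ₁)⟩
  refine ⟨e₀ / e, fun τ k hk => ?_⟩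
  have h3 := h1 τ k hk
  have h4 := h2 τ k hk
  have h5 := he₀ (down ι τ)
  have h6 := h5.congr' (h3.mono fun s hs => hs.symm)
  rw [h4]
  convert h6 using 2
  have h7 : τ e ≠ 0 := by rw [_root_.map_ne_zero]; exact he
  rw [map_div₀, down_apply, pw]
  field_simp

end

end Pool.Agent.Helper61K9.CW
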