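import Pool.Agent.Helper8K9.DG.Mot

/-!
# Complex embeddings and embeddings into the algebraic numbers
-/

set_option autoImplicit false
set_option linter.unusedSectionVars false

namespace Pool.Agent.Helper61K9.CW


variable {QA : Type} [Field QA] [CharZero QA] [IsAlgClosed QA] [Algebra.IsAlgebraic ℚ QA]
  {KK : Type} [Field KK] [IsAlgClosed KK]

open Polynomial Pool.Agent.Helper8K9.DG

theorem mem_range (ι : QA →+* ℂ) {E' : Type} [Field E'] [NumberField E'] (τ : E' →+* ℂ) (x : E') :
    ∃ y : QA, ι y = τ x := by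
  have h1 : IsIntegral ℚ x := Algebra.IsIntegral.isIntegral x
  have hne : minpoly ℚ x ≠ 0 := minpoly.ne_zero h1
  have h2 : ((minpoly ℚ x).map (algebraMap ℚ QA)).Splits := IsAlgClosed.splits _
  have h3 : ((minpoly ℚ x).map (algebraMap ℚ ℂ)).roots
      = (((minpoly ℚ x).map (algebraMap ℚ QA)).roots).map ι := by
    have h4 : (minpoly ℚ x).map (algebraMap ℚ ℂ) = ((minpoly ℚ x).map (algebraMap ℚ QA)).map ι := by
      rw [Polynomial.map_map]
      congr 1
      exact Subsingleton.elim _ _
    rw [h4]
    exact h2.roots_map ι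
  have h4 : τ x ∈ ((minpoly ℚ x).map (algebraMap ℚ ℂ)).roots := by
    rw [Polynomial.mem_roots (by
      rw [Ne, Polynomial.map_eq_zero]; exact hne)]
    rw [Polynomial.IsRoot.def, Polynomial.eval_map_algebraMap]
    have h5 := minpoly.aeval ℚ x
    have h6 : (algebraMap ℚ ℂ) = τ.comp (algebraMap ℚ E') := Subsingleton.elim _ _
    rw [Polynomial.aeval_def, h6, ← Polynomial.hom_eval₂, ← Polynomial.aeval_def, h5, map_zero]
  rw [h3, Multiset.mem_map] at h4
  obtain ⟨y, -, hy⟩ := h4
  exact ⟨y, hy⟩

/-- the embedding into the algebraic numbers given by a complex embedding -/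
theorem exists_down (ι : QA →+* ℂ) {E' : Type} [Field E'] [NumberField E'] (τ : E' →+* ℂ) :
    ∃ τ' : E' →+* QA, ι.comp τ' = τ := by
  choose f hf using mem_range ι τ
  refine ⟨{ toFun := f, map_one' := ?_, map_mul' := ?_, map_zero' := ?_, map_add' := ?_ }, ?_⟩
  · apply ι.injective; rw [hf, map_one, map_one]
  · intro x y; apply ι.injective; rw [hf, map_mul, map_mul, hf, hf]
  · apply ι.injective; rw [hf, map_zero, map_zero]
  · intro x y; apply ι.injective; rw [hf, map_add, map_add, hf, hf]
  · ext x; exact hf x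

/-- the embedding into the algebraic numbers given by a complex embedding -/
noncomputable def down (ι : QA →+* ℂ) {E' : Type} [Field E'] [NumberField E'] (τ : E' →+* ℂ) :
    E' →+* QA := (exists_down ι τ).choose

theorem down_spec (ι : QA →+* ℂ) {E' : Type} [Field E'] [NumberField E'] (τ : E' →+* ℂ) :
    ι.comp (down ι τ) = τ := (exists_down ι τ).choose_spec

theorem down_apply (ι : QA →+* ℂ) {E' : Type} [Field E'] [NumberField E'] (τ : E' →+* ℂ) (x : E') :
    ι (down ι τ x) = τ x := congrArg (fun f : E' →+* ℂ => f x) (down_spec ι τ)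

theorem down_comp (ι : QA →+* ℂ) {E' : Type} [Field E'] [NumberField E'] (τ : E' →+* QA) :
    down ι (ι.comp τ) = τ := by
  ext x
  apply ι.injective
  rw [down_apply]
  rfl

end Pool.Agent.Helper61K9.CW
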