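import Pool.Agent.Helper61K9.CW.Four
import Pool.Agent.Helper8K9.DG.Fin
import Pool.Agent.Helper8K9.DG.Asc

/-!
# Central critical values: assembly
-/

set_option autoImplicit false
set_option linter.unusedSectionVars false

namespace Pool.Agent.Helper61K9.CW

open Pool.Agent.Helper61K9.CV

variable {QA : Type} [Field QA] [CharZero QA] [IsAlgClosed QA] [Algebra.IsAlgebraic ℚ QA]
  {KK : Type} [Field KK] [IsAlgClosed KK]

open Matrix Polynomial Filter Topology NumberField Pool.Agent.Helper8K9.DG Pool.Agent.R389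
  Pool.Agent.H541R3.ART Pool.Agent.W446.AS

section

variable {E : Type} [Field E] {d : ℕ} {M : Motive QA KK E d} {ι : QA →+* ℂ}
  {E' : Type} [Field E'] [Algebra E E'] {E'' : Type} [Field E''] [Algebra E E''] [Algebra E' E'']
  [IsScalarTower E E' E''] {n : Type} [Fintype n] [DecidableEq n]

/-- extension of the coefficients of an L-function -/
theorem isL_ext {ρ : (QA ≃ₐ[ℚ] QA) →* Matrix n n E'} {L : (E' →+* QA) → ℂ → ℂ}
    (hL : IsLFunction M ι ρ L) :
    IsLFunction M ι ((algebraMap E' E'').mapMatrix.toMonoidHom.comp ρ)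
      (fun τ => L (τ.comp (algebraMap E' E''))) := by
  obtain ⟨Q, hQ, hE⟩ := hL
  refine ⟨fun p => (Q p).map (algebraMap E' E''), fun p j hj => ?_, fun τ => ?_⟩
  · have h1 : (j.comp (algebraMap E' E'')).comp (algebraMap E E') = M.coeff p := by
      rw [RingHom.comp_assoc, ← IsScalarTower.algebraMap_eq E E' E'', hj]
    obtain ⟨T, hT, hc⟩ := hQ p (j.comp (algebraMap E' E'')) h1
    exact ⟨T, hT, by rw [Polynomial.map_map]; exact hc⟩
  · obtain ⟨h1, b, h2⟩ := hE (τ.comp (algebraMap E' E''))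
    refine ⟨h1, b, fun s hs => ?_⟩
    have h3 := h2 s hs
    have h4 : ∀ p : Nat.Primes, ((Q p).map (algebraMap E' E'')).map (ι.comp τ) =
        (Q p).map (ι.comp (τ.comp (algebraMap E' E''))) := by
      intro p
      rw [Polynomial.map_map]
      rfl
    simp only [h4]
    exact h3

open Classical in
/-- extension of the coefficients of an induced representation -/
theorem ext_induced {K : IntermediateField ℚ QA} [FiniteDimensional ℚ K]
    (ψ : K.fixingSubgroup →* E'ˣ) (ψ'' : K.fixingSubgroup →* E''ˣ)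
    (h : ∀ γ, ((ψ'' γ : E''ˣ) : E'') = algebraMap E' E'' (ψ γ : E')) :
    (algebraMap E' E'').mapMatrix.toMonoidHom.comp (induced K ψ) = induced K ψ'' := by
  refine MonoidHom.ext fun γ => ?_
  ext τ τ'
  change algebraMap E' E'' (inducedMatrix K ψ γ τ τ') = inducedMatrix K ψ'' γ τ τ'
  rw [inducedMatrix, inducedMatrix, Matrix.of_apply, Matrix.of_apply]
  by_cases h1 : (extend K τ)⁻¹ * γ * extend K τ' ∈ K.fixingSubgroup
  · rw [dif_pos h1, dif_pos h1, h]
  · rw [dif_neg h1, dif_neg h1, map_zero]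

end

/-- subfields of a solvable extension of the rational numbers -/
theorem over_of_solvable {c : (QA ≃ₐ[ℚ] QA)} {F₀ K : IntermediateField ℚ QA}
    [FiniteDimensional ℚ F₀] [hn : F₀.fixingSubgroup.Normal]
    (hs : Group.IsSolvable ((QA ≃ₐ[ℚ] QA) ⧸ F₀.fixingSubgroup)) (hK : K ≤ F₀) :
    IsSolvableOverReal c K := by
  refine ⟨⊥, F₀, bot_le, hK, inferInstance, fun g => ?_, ?_⟩
  · rw [IntermediateField.fixingSubgroup_bot]
    exact Subgroup.mem_top _
  · refine ⟨inferInstance, ?_⟩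
    let φ : (⊥ : IntermediateField ℚ QA).fixingSubgroup ⧸
        F₀.fixingSubgroup.subgroupOf (⊥ : IntermediateField ℚ QA).fixingSubgroup →*
        (QA ≃ₐ[ℚ] QA) ⧸ F₀.fixingSubgroup :=
      QuotientGroup.lift _ ((QuotientGroup.mk' F₀.fixingSubgroup).comp
        (⊥ : IntermediateField ℚ QA).fixingSubgroup.subtype) (by
          intro x hx
          exact (QuotientGroup.eq_one_iff (x : (QA ≃ₐ[ℚ] QA))).mpr (Subgroup.mem_subgroupOf.mp hx))
    refine Group.isSolvable_of_isSolvable_injective (f := φ) ?_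
    rw [← MonoidHom.ker_eq_bot_iff, eq_bot_iff]
    intro x hx
    obtain ⟨y, rfl⟩ := QuotientGroup.mk_surjective x
    rw [MonoidHom.mem_ker] at hx
    rw [Subgroup.mem_bot, QuotientGroup.eq_one_iff, Subgroup.mem_subgroupOf]
    exact (QuotientGroup.eq_one_iff (y : (QA ≃ₐ[ℚ] QA))).mp hx

section

variable {E : Type} [Field E] [NumberField E] {d : ℕ} {M : Motive QA KK E d} {ι : QA →+* ℂ}
  {c : (QA ≃ₐ[ℚ] QA)} {m m' : ℤ}

open Classical in
/-- Deligne's conjecture at `m'` for the monomial representations -/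
theorem mon_deligne (hc : ∀ x, ι (c x) = starRingEnd ℂ (ι x)) (hab : AbelianTwists M ι c m')
    (hM : DeligneConjecture M ι c m' (1 : (QA ≃ₐ[ℚ] QA) →* Matrix Unit Unit E))
    {χ₀ : (QA ≃ₐ[ℚ] QA) →* ℤˣ} (hfin : IsFinite ⊤ χ₀) (hodd : χ₀ c = -1)
    (hMχ : DeligneConjecture M ι c m' (quadRep E χ₀)) {E' : Type} [Field E'] [NumberField E']
    [Algebra E E'] (K : IntermediateField ℚ QA) [FiniteDimensional ℚ K]
    (hK : IsSolvableOverReal c K) (ψ : K.fixingSubgroup →* E'ˣ) (hψ : IsFiniteOver K ψ) :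
    DeligneConjecture M ι c m' (induced K ψ) := by
  have hcc := conj_sq ι c hc
  refine final M ι c hc m' hab (fun F _ _ _ => ?_) χ₀ hfin hodd (fun F _ _ _ => ?_) E'
    (K →ₐ[ℚ] QA) (induced K ψ) (induced_fin hψ) ?_
  · have h1 := asc pex puni E d M ι c hcc m' F Unit 1 ⟨⊥, inferInstance, le_top, fun _ _ => rfl⟩ hM
    convert h1 using 1
    ext γ i j
    simp [quadRep]
  · obtain ⟨F₀, hF₀, -, h0⟩ := hfin
    have h1 := asc pex puni E d M ι c hcc m' F Unit (quadRep E χ₀) ⟨F₀, hF₀, le_top, fun γ hγ => by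
      ext i j
      change (((χ₀ γ : ℤˣ) : ℤ) : E) = _
      rw [h0 γ hγ, Subsingleton.elim j i, Matrix.one_apply_eq]
      simp⟩ hMχ
    convert h1 using 1
    ext γ i j
    simp [quadRep]
  · exact solvable_closure c K hK ψ (QuotientGroup.mk' (induced K ψ).ker)
      (QuotientGroup.mk'_surjective _) (fun γ hγ =>
        (QuotientGroup.eq_one_iff γ).mpr (MonoidHom.mem_ker.mpr hγ))

open Classical in
/-- **Central critical values** -/
theorem fin (hc : ∀ x, ι (c x) = starRingEnd ℂ (ι x)) (hab : AbelianTwists M ι c m')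
    (hM : DeligneConjecture M ι c m' (1 : (QA ≃ₐ[ℚ] QA) →* Matrix Unit Unit E))
    {χ₀ : (QA ≃ₐ[ℚ] QA) →* ℤˣ} (hfin : IsFinite ⊤ χ₀) (hodd : χ₀ c = -1)
    (hMχ : DeligneConjecture M ι c m' (quadRep E χ₀)) (hSP : SamePeriods M ι c m m')
    {E' : Type} [Field E'] [NumberField E'] [Algebra E E'] (F F₀ : IntermediateField ℚ QA)
    [FiniteDimensional ℚ F] [FiniteDimensional ℚ F₀] [F.fixingSubgroup.Normal]
    [F₀.fixingSubgroup.Normal] (hle : F₀ ≤ F) (hF : IsSolvableOverReal c F)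
    (hMG : IsMonomialGroup ((QA ≃ₐ[ℚ] QA) ⧸ F₀.fixingSubgroup))
    (lam : (QA ≃ₐ[ℚ] QA) →* E'ˣ) (hlam : ∀ γ ∈ F.fixingSubgroup, lam γ = 1)
    {L L₀ : (E' →+* QA) → ℂ → ℂ}
    (hL : IsLFunction M ι (induced F (1 : F.fixingSubgroup →* E'ˣ)) L)
    (hL₀ : IsLFunction M ι (induced F₀ (lam.comp F₀.fixingSubgroup.subtype)) L₀)
    (τ₀ : E' →+* QA) (hz : meromorphicOrderAt (L τ₀) (m : ℂ) ≤
      max 1 (meromorphicOrderAt (L₀ τ₀) (m : ℂ)))
    {n : Type} [Fintype n] [DecidableEq n] (ρ : (QA ≃ₐ[ℚ] QA) →* Matrix n n E')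
    (hρ : ∀ γ ∈ F.fixingSubgroup, ρ γ = 1) : DeligneConjecture M ι c m ρ := by
  have hcc := conj_sq ι c hc
  -- the Galois group of `F`
  have hfi := IsoL.finiteIndex F inferInstance
  let G : Type := (QA ≃ₐ[ℚ] QA) ⧸ F.fixingSubgroup
  let π : (QA ≃ₐ[ℚ] QA) →* G := QuotientGroup.mk' F.fixingSubgroup
  have hπs : Function.Surjective π := QuotientGroup.mk'_surjective _
  have hπk : ∀ γ ∈ F.fixingSubgroup, π γ = 1 := fun γ hγ => (QuotientGroup.eq_one_iff γ).mpr hγ
  have hπ : IsFinite ⊤ π := ⟨F, inferInstance, le_top, hπk⟩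
  have hker : π.ker = F.fixingSubgroup := QuotientGroup.ker_mk' _
  have hGf : Finite G := inferInstanceAs (Finite ((QA ≃ₐ[ℚ] QA) ⧸ F.fixingSubgroup))
  have hsol : Group.IsSolvable (Subgroup.normalClosure {π c}) := solvable_field c F hF π hπs hπk
  have hFb : F.fixingSubgroup = (⊥ : Subgroup G).comap π := hker.symm
  have hFF : F.fixingSubgroup ≤ F₀.fixingSubgroup := IntermediateField.fixingSubgroup_antitone hle
  let K : Subgroup G := F₀.fixingSubgroup.map π
  have hF₀ : F₀.fixingSubgroup = K.comap π := by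
    rw [Subgroup.comap_map_eq, hker, sup_eq_left.mpr hFF]
  have hKn : K.Normal := Subgroup.Normal.map inferInstance π hπs
  have hQ : ∀ χ ∈ Irr (G ⧸ K), Mono χ := by
    intro χ hχ
    let φ : (QA ≃ₐ[ℚ] QA) ⧸ F₀.fixingSubgroup →* G ⧸ K :=
      QuotientGroup.lift _ ((QuotientGroup.mk' K).comp π) (by
        intro x hx
        exact (QuotientGroup.eq_one_iff (π x)).mpr ⟨x, hx, rfl⟩)
    have hφs : Function.Surjective φ := by
      intro y
      obtain ⟨g, rfl⟩ := QuotientGroup.mk_surjective y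
      obtain ⟨γ, rfl⟩ := hπs g
      exact ⟨(γ : (QA ≃ₐ[ℚ] QA) ⧸ F₀.fixingSubgroup), rfl⟩
    have hφi : Function.Injective φ := by
      rw [← MonoidHom.ker_eq_bot_iff, eq_bot_iff]
      intro x hx
      obtain ⟨y, rfl⟩ := QuotientGroup.mk_surjective x
      rw [MonoidHom.mem_ker] at hx
      have h1 : π y ∈ K := (QuotientGroup.eq_one_iff (π y)).mp hx
      rw [Subgroup.mem_bot, QuotientGroup.eq_one_iff, hF₀]
      exact h1
    let e : (QA ≃ₐ[ℚ] QA) ⧸ F₀.fixingSubgroup ≃* G ⧸ K := MulEquiv.ofBijective φ ⟨hφi, hφs⟩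
    have hfi₀ := IsoL.finiteIndex F₀ inferInstance
    have hGf₀ : Finite ((QA ≃ₐ[ℚ] QA) ⧸ F₀.fixingSubgroup) := inferInstance
    obtain ⟨k, σ, hσ, hσχ⟩ := infl_irr (π := e.toMonoidHom) e.surjective hχ
    obtain ⟨U, ψ, hU⟩ := hMG.2 k σ hσ
    have h2 : Mono (fun x => χ (e x)) := ⟨U, ψ, by
      change (fun x => χ (e.toMonoidHom x)) = _
      rw [hσχ, hU]⟩
    have h3 := h2.comp (π := e.symm.toMonoidHom) e.symm.surjective
    convert h3 using 1
    funext y
    change χ y = χ (e (e.symm y))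
    rw [MulEquiv.apply_symm_apply]
  have hQs : ∀ U : Subgroup G, K ≤ U → Over c π U := by
    intro U hU K' hK'
    refine over_of_solvable (F₀ := F₀) hMG.1 (le_of_fixing ?_)
    rw [hK', hF₀]
    exact Subgroup.comap_mono hU
  -- the field of coefficients
  have hexp : NeZero (Monoid.exponent G) := ⟨Monoid.exponent_ne_zero_of_finite⟩
  let E'' : Type := CyclotomicField (Monoid.exponent G) E'
  have : NumberField E'' := IsCyclotomicExtension.numberField {Monoid.exponent G} E' E''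
  have : IsScalarTower E E' E'' := inferInstance
  have : Algebra.IsAlgebraic E E'' := by
    have h3 : IsScalarTower ℚ E E'' := IsScalarTower.of_algebraMap_eq fun x => by
      rw [eq_ratCast, eq_ratCast, map_ratCast]
    exact Algebra.IsAlgebraic.tower_top (K := ℚ) E
  have hζ := IsCyclotomicExtension.zeta_spec (Monoid.exponent G) E' E''
  obtain ⟨τ₁, hτ₁⟩ := Per.exists_lift (QA := QA) E' E'' τ₀
  -- the L-functions
  have hL' : IsLFunction M ι (induced F (pull hFb (1 : (⊥ : Subgroup G) →* E''ˣ)))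
      (fun τ => L (τ.comp (algebraMap E' E''))) := by
    have h1 := isL_ext (E'' := E'') hL
    rwa [ext_induced _ (pull hFb (1 : (⊥ : Subgroup G) →* E''ˣ)) (fun γ => by
      change (1 : E'') = algebraMap E' E'' ((1 : E'ˣ) : E')
      rw [Units.val_one, map_one])] at h1
  let lamG : G →* E''ˣ := QuotientGroup.lift F.fixingSubgroup
    ((Units.map (algebraMap E' E'').toMonoidHom).comp lam) (by
      intro x hx
      rw [MonoidHom.mem_ker, MonoidHom.comp_apply, hlam x hx, map_one])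
  have hL₀' : IsLFunction M ι (induced F₀ (pull hF₀ (lamG.comp K.subtype)))
      (fun τ => L₀ (τ.comp (algebraMap E' E''))) := by
    have h1 := isL_ext (E'' := E'') hL₀
    rwa [ext_induced _ (pull hF₀ (lamG.comp K.subtype)) (fun γ => rfl)] at h1
  -- the representation
  refine desc pne E d M ι c m E' E'' n ρ ?_
  let ρ' : (QA ≃ₐ[ℚ] QA) →* Matrix n n E'' := (algebraMap E' E'').mapMatrix.toMonoidHom.comp ρ
  have hρ'1 : ∀ γ ∈ F.fixingSubgroup, ρ' γ = 1 := by
    intro γ h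
    change (algebraMap E' E'').mapMatrix (ρ γ) = 1
    rw [hρ γ h, map_one]
  let r : G →* Matrix n n E'' := (Units.coeHom (Matrix n n E'')).comp
    (QuotientGroup.lift F.fixingSubgroup ρ'.toHomUnits (by
      intro x hx
      apply Units.ext
      exact hρ'1 x hx))
  have hr : r.comp π = ρ' := by
    refine MonoidHom.ext fun γ => ?_
    rfl
  change DeligneConjecture M ι c m ρ'
  rw [← hr]
  obtain ⟨Lf, P, hLf, hP, hmon, hS⟩ := transfer (m := m) (E' := E'') hcc hab hSP hfin hodd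
    (fun K₁ _ hK₁ ψ hψ => mon_deligne hc hab hM hfin hodd hMχ K₁ hK₁ ψ hψ) hπs hπ hsol hζ
  rcases le_max_iff.mp hz with h | h
  · exact core_one hζ hLf hP hsol hmon hS hcc hπs hπ hFb hL' τ₁ (by
      rw [hτ₁]
      exact h) r
  · exact core_old hζ hLf hP hsol hmon hS hcc hπs hπ hFb hL' K hQ hQs lamG hF₀ hL₀' τ₁ (by
      rw [hτ₁]
      exact h) r

end

end Pool.Agent.Helper61K9.CW
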