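import Pool.Agent.Helper61K9.CW.Core
import Pool.Agent.Helper61K9.CV.OldM

/-!
# Few zeros
-/

set_option autoImplicit false
set_option linter.unusedSectionVars false

namespace Pool.Agent.Helper61K9.CW

open Pool.Agent.Helper61K9.CV

variable {QA : Type} [Field QA] [CharZero QA] [IsAlgClosed QA] [Algebra.IsAlgebraic ℚ QA]
  {KK : Type} [Field KK] [IsAlgClosed KK]

open Matrix Polynomial Filter Topology NumberField Pool.Agent.Helper8K9.DG Pool.Agent.R389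
  Pool.Agent.H541R3.ART Pool.Agent.W446.AS

section

variable {E : Type} [Field E] {d : ℕ} {M : Motive QA KK E d} {ι : QA →+* ℂ} {c : (QA ≃ₐ[ℚ] QA)} {m m' : ℤ}
  {E' : Type} [Field E'] [NumberField E'] [Algebra E E'] [Algebra.IsAlgebraic E E']
  {G : Type} [Group G] [Finite G] {π : (QA ≃ₐ[ℚ] QA) →* G}
  {L : (E' →+* ℂ) → (G → ℂ) → ℂ → ℂ} {P : (E' →+* ℂ) → (G → ℂ) → ℂ}

theorem comp_finite (hπ : IsFinite ⊤ π) {n : Type} [Fintype n] [DecidableEq n]
    (r : G →* Matrix n n E') : IsFinite ⊤ (r.comp π) := by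
  obtain ⟨F, hF, h1, h⟩ := hπ
  exact ⟨F, hF, h1, fun γ hγ => by rw [MonoidHom.comp_apply, h γ hγ, map_one]⟩

/-- the last step -/
theorem Sys.fin (hS : Sys M ι c m π L P) (hπ : IsFinite ⊤ π) {n : Type} [Fintype n]
    [DecidableEq n] (r : G →* Matrix n n E') (hD : Deligne L P (m : ℂ) (matRep r).character) :
    DeligneConjecture M ι c m (r.comp π) := by
  refine hS.to (comp_finite hπ r) (f := fun g => (r g).trace) (fun γ => rfl)
    (fun τ => mat_closure r τ) ?_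
  have h : (matRep r).character = fun g => (r g).trace := funext fun g => matRep_char r g
  rwa [h] at hD

variable {ζ : E'} (hζ : IsPrimitiveRoot ζ (Monoid.exponent G))
  (hL : ∀ τ, ∀ χ ∈ Irr G, MeromorphicAt (L τ χ) (m : ℂ) ∧ meromorphicOrderAt (L τ χ) (m : ℂ) ≠ ⊤)
  (hP : ∀ τ, ∀ χ ∈ Irr G, P τ χ ≠ 0)
  (hsol : Group.IsSolvable (Subgroup.normalClosure {π c}))
  (hmon : ∀ (U : Subgroup G) (ψ : U →* E'ˣ), Over c π U →
    Deligne L P (m : ℂ) (ind U (fun u => ((ψ u : E'ˣ) : E'))))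
  (hS : Sys M ι c m π L P) (hcc : c * c = 1) (hπs : Function.Surjective π) (hπ : IsFinite ⊤ π)
  {F : IntermediateField ℚ QA} [FiniteDimensional ℚ F]
  (hF : F.fixingSubgroup = (⊥ : Subgroup G).comap π)

include hζ hL hP hsol hmon hS hcc hπs hπ

open Classical in
/-- order at most one -/
theorem core_one {ℓ : (E' →+* QA) → ℂ → ℂ}
    (hℓ : IsLFunction M ι (induced F (pull hF (1 : (⊥ : Subgroup G) →* E'ˣ))) ℓ)
    (τ₀ : E' →+* QA) (hz : meromorphicOrderAt (ℓ τ₀) (m : ℂ) ≤ 1) {n : Type} [Fintype n]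
    [DecidableEq n] (r : G →* Matrix n n E') : DeligneConjecture M ι c m (r.comp π) := by
  obtain ⟨deg, hdeg⟩ := exists_deg G
  have h1 := hS.order hcc hπs hπ hF 1 hℓ τ₀ (decomp_reg (ι.comp τ₀) hdeg)
  have htopP : IsPGroup 2 (G ⧸ (⊤ : Subgroup G)) := by
    intro q
    refine ⟨0, ?_⟩
    obtain ⟨g, rfl⟩ := QuotientGroup.mk_surjective q
    rw [pow_zero, pow_one]
    exact (QuotientGroup.eq_one_iff g).mpr (Subgroup.mem_top g)
  have h2 := Pool.Agent.R389.main hζ hL hP (fun U ψ hU => hmon U ψ (over_solvable hπ hsol hU.solvable)) (ι.comp τ₀) hdeg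
    Nat.prime_two ⊤ htopP 1 (by rw [h1]; exact le_max_of_le_left hz) (matRep r)
  exact hS.fin hπ r h2

open Classical in
/-- old zeros -/
theorem core_old {ℓ ℓ₀ : (E' →+* QA) → ℂ → ℂ}
    (hℓ : IsLFunction M ι (induced F (pull hF (1 : (⊥ : Subgroup G) →* E'ˣ))) ℓ)
    (K : Subgroup G) [K.Normal] (hQ : ∀ χ ∈ Irr (G ⧸ K), Mono χ) (hQs : ∀ U : Subgroup G, K ≤ U → Over c π U)
    (lam : G →* E'ˣ) {F₀ : IntermediateField ℚ QA}
    [FiniteDimensional ℚ F₀] (hF₀ : F₀.fixingSubgroup = K.comap π)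
    (hℓ₀ : IsLFunction M ι (induced F₀ (pull hF₀ (lam.comp K.subtype))) ℓ₀)
    (τ₀ : E' →+* QA)
    (hz : meromorphicOrderAt (ℓ τ₀) (m : ℂ) ≤ meromorphicOrderAt (ℓ₀ τ₀) (m : ℂ))
    {n : Type} [Fintype n]
    [DecidableEq n] (r : G →* Matrix n n E') : DeligneConjecture M ι c m (r.comp π) := by
  obtain ⟨deg, hdeg⟩ := exists_deg G
  have h1 := hS.order hcc hπs hπ hF 1 hℓ τ₀ (decomp_reg (ι.comp τ₀) hdeg)
  have h2 := hS.order hcc hπs hπ hF₀ (lam.comp K.subtype) hℓ₀ τ₀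
    (decomp_old (ι.comp τ₀) K lam hdeg)
  have h3 := Pool.Agent.R389.main_grow hζ hL hP
    (fun U ψ hU => hmon U ψ (over_solvable hπ hsol hU.solvable)) (ι.comp τ₀)
    hdeg K lam (fun W _ _ _ σ hσ => old_deligne hζ hL hP K hQ
      (fun U ψ hU => hmon U ψ (hQs U hU)) (ι.comp τ₀) lam σ hσ) (by
      rw [h1]
      refine hz.trans ?_
      rw [← h2]
      apply le_of_eq
      congr 1
      funext s
      exact (prod_old (fun χ : G → ℂ => ∀ k ∈ K, χ k = χ 1 * (ι.comp τ₀) ((lam k : E'ˣ) : E')) deg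
        (fun χ => L (ι.comp τ₀) χ s)).symm) (matRep r)
  exact hS.fin hπ r h3

end

end Pool.Agent.Helper61K9.CW
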