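import Pool.Agent.Helper61K9.CW.Rl
import Pool.Agent.Helper61K9.CV.Stm

/-!
# L-functions and periods of combinations of monomial representations
-/

set_option autoImplicit false
set_option linter.unusedSectionVars false

namespace Pool.Agent.Helper61K9.CW

open Pool.Agent.Helper61K9.CV

variable {QA : Type} [Field QA] [CharZero QA] [IsAlgClosed QA] [Algebra.IsAlgebraic ℚ QA]
  {KK : Type} [Field KK] [IsAlgClosed KK]

open Matrix Polynomial Filter Topology NumberField Pool.Agent.Helper8K9.DG Pool.Agent.R389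

section

variable {E : Type} [Field E] {d : ℕ} {M : Motive QA KK E d} {ι : QA →+* ℂ} {c : (QA ≃ₐ[ℚ] QA)} {m : ℤ}
  {E' : Type} [Field E'] [Algebra E E'] {G : Type} [Group G]

/-- the character of a monomial representation -/
noncomputable def mc (π : (QA ≃ₐ[ℚ] QA) →* G) (i : Ix G E') (γ : (QA ≃ₐ[ℚ] QA)) : E' :=
  ind i.1 (fun u => ((i.2 u : E'ˣ) : E')) (π γ)

theorem rl_mul {f : (QA ≃ₐ[ℚ] QA) → E'} {ℓ : (E' →+* QA) → ℂ → ℂ} {w : (E' →+* QA) → ℂ}
    (h : Rl M ι c m f ℓ w) (k : ℕ) :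
    Rl M ι c m (fun γ => (k : E') * f γ) (fun τ s => ℓ τ s ^ k) (fun τ => w τ ^ k) := by
  induction k with
  | zero =>
    refine (Rl.zero.congr_f fun γ => ?_).congr_l (fun τ s => ?_) fun τ => ?_
    · simp
    · simp
    · simp
  | succ k ih =>
    refine ((ih.add h).congr_f fun γ => ?_).congr_l (fun τ s => ?_) fun τ => ?_
    · push_cast; ring
    · rw [pow_succ]
    · rw [pow_succ]

theorem rl_prod {I : Type} {f : I → (QA ≃ₐ[ℚ] QA) → E'} {ℓ : I → (E' →+* QA) → ℂ → ℂ}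
    {w : I → (E' →+* QA) → ℂ} (s : Finset I) (b : I → ℕ)
    (h : ∀ i ∈ s, Rl M ι c m (f i) (ℓ i) (w i)) :
    Rl M ι c m (fun γ => ∑ i ∈ s, (b i : E') * f i γ) (fun τ z => ∏ i ∈ s, ℓ i τ z ^ b i)
      (fun τ => ∏ i ∈ s, w i τ ^ b i) := by
  classical
  induction s using Finset.induction_on with
  | empty =>
    refine (Rl.zero.congr_f fun γ => ?_).congr_l (fun τ s => ?_) fun τ => ?_
    · simp
    · simp
    · simp
  | insert i s hi ih =>
    have h1 := ih fun j hj => h j (Finset.mem_insert_of_mem hj)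
    have h2 := rl_mul (h i (Finset.mem_insert_self i s)) (b i)
    refine ((h2.add h1).congr_f fun γ => ?_).congr_l (fun τ z => ?_) fun τ => ?_
    · rw [Finset.sum_insert hi]
    · rw [Finset.prod_insert hi]
    · rw [Finset.prod_insert hi]

end

section

variable {E : Type} [Field E] {d : ℕ} {M : Motive QA KK E d} {ι : QA →+* ℂ} {c : (QA ≃ₐ[ℚ] QA)} {m : ℤ}
  {E' : Type} [Field E'] [NumberField E'] [Algebra E E'] [Algebra.IsAlgebraic E E'] {G : Type}
  [Group G]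

theorem toNat_sub (z : ℤ) : z = (z.toNat : ℤ) - ((-z).toNat : ℤ) := by omega

theorem rl_chr (π : (QA ≃ₐ[ℚ] QA) →* G) {ℓ : Ix G E' → (E' →+* QA) → ℂ → ℂ} {w : Ix G E' → (E' →+* QA) → ℂ}
    (z : ℂ) (a : Ix G E' →₀ ℤ) (h : ∀ i ∈ a.support, Rl M ι c m (mc π i) (ℓ i) (w i))
    (hz : ∀ i ∈ a.support, ∀ τ, meromorphicOrderAt (ℓ i τ) z ≠ ⊤) {f : (QA ≃ₐ[ℚ] QA) → E'}
    {L : (E' →+* QA) → ℂ → ℂ} {W : (E' →+* QA) → ℂ} (hf : Rl M ι c m f L W)
    (hfa : ∀ γ, f γ = chr a (π γ)) :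
    (∀ τ, ∀ᶠ s in 𝓝[≠] z, L τ s = a.prod fun i n => ℓ i τ s ^ n) ∧
    ∃ e : E', e ≠ 0 ∧ ∀ τ, W τ = ι (τ e) * a.prod fun i n => w i τ ^ n := by
  classical
  have h1 := rl_prod a.support (fun i => (a i).toNat) h
  have h2 := rl_prod a.support (fun i => (-(a i)).toNat) h
  have h3 := hf.add h2
  have h4 : ∀ γ, f γ + ∑ i ∈ a.support, (((-(a i)).toNat : ℕ) : E') * mc π i γ
      = ∑ i ∈ a.support, (((a i).toNat : ℕ) : E') * mc π i γ := by
    intro γ
    rw [hfa, chr, Finsupp.sum, ← Finset.sum_add_distrib]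
    refine Finset.sum_congr rfl fun i _ => ?_
    have h5 := congrArg (fun z : ℤ => (z : E')) (toNat_sub (a i))
    beta_reduce at h5
    push_cast at h5
    rw [mc]
    linear_combination (ind i.1 (fun u => ((i.2 u : E'ˣ) : E')) (π γ)) * h5
  obtain ⟨h5, e, he, h6⟩ := (h3.congr_f h4).unique h1
  refine ⟨fun τ => ?_, e, he, fun τ => ?_⟩
  · have h7 : ∀ᶠ s in 𝓝[≠] z, ∀ i ∈ a.support, ℓ i τ s ≠ 0 := by
      rw [Filter.eventually_all_finset]
      intro i hi
      have h8 := ((h i hi).mero τ) z (Set.mem_univ z)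
      exact (meromorphicOrderAt_ne_top_iff_eventually_ne_zero h8).mp (hz i hi τ)
    filter_upwards [h5 τ z, h7] with s h8 h9
    have h10 : ∏ i ∈ a.support, ℓ i τ s ^ (-(a i)).toNat ≠ 0 :=
      Finset.prod_ne_zero_iff.mpr fun i hi => pow_ne_zero _ (h9 i hi)
    apply mul_right_cancel₀ h10
    rw [h8, Finsupp.prod, ← Finset.prod_mul_distrib]
    refine Finset.prod_congr rfl fun i hi => ?_
    rw [← zpow_natCast, ← zpow_natCast, ← zpow_add₀ (h9 i hi)]
    congr 1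
    have := toNat_sub (a i)
    omega
  · have h9 : ∀ i ∈ a.support, w i τ ≠ 0 := fun i hi => (h i hi).ne_zero τ
    have h10 : ∏ i ∈ a.support, w i τ ^ (-(a i)).toNat ≠ 0 :=
      Finset.prod_ne_zero_iff.mpr fun i hi => pow_ne_zero _ (h9 i hi)
    apply mul_right_cancel₀ h10
    have h8 := h6 τ
    beta_reduce at h8
    rw [h8, Finsupp.prod, mul_assoc, ← Finset.prod_mul_distrib]
    congr 1
    refine Finset.prod_congr rfl fun i hi => ?_
    rw [← zpow_natCast, ← zpow_natCast, ← zpow_add₀ (h9 i hi)]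
    congr 1
    have := toNat_sub (a i)
    omega

end

end Pool.Agent.Helper61K9.CW
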