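import Pool.Agent.Helper8K9.DG.Good
import Pool.Agent.Helper8K9.DG.Liso
import Pool.Agent.Helper8K9.DG.Luni
import Pool.Agent.Helper8K9.DG.Ldiv
import Pool.Agent.Helper8K9.DG.Psum
import Pool.Agent.Helper8K9.DG.Iso
import Pool.Agent.Helper8K9.DG.Lsum
import Pool.Agent.Helper8K9.DG.Pne

/-!
# L-functions and periods attached to the character of an Artin representation
-/

set_option autoImplicit false
set_option linter.unusedSectionVars false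

namespace Pool.Agent.Helper61K9.CW


variable {QA : Type} [Field QA] [CharZero QA] [IsAlgClosed QA] [Algebra.IsAlgebraic ℚ QA]
  {KK : Type} [Field KK] [IsAlgClosed KK]

open Matrix Polynomial Filter Topology NumberField Pool.Agent.Helper8K9.DG

section

variable {E : Type} [Field E] {d : ℕ} (M : Motive QA KK E d) (ι : QA →+* ℂ) (c : (QA ≃ₐ[ℚ] QA)) (m : ℤ)
  {E' : Type} [Field E'] [Algebra E E']

/-- `f` is the character of a representation, `ℓ` is its L-function and `w` its period, with the power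
of `2 π i` -/
def Rl (f : (QA ≃ₐ[ℚ] QA) → E') (ℓ : (E' →+* QA) → ℂ → ℂ) (w : (E' →+* QA) → ℂ) : Prop :=
  ∃ (n : Type) (_ : Fintype n) (_ : DecidableEq n) (ρ : (QA ≃ₐ[ℚ] QA) →* Matrix n n E'), IsFinite ⊤ ρ ∧
    (∀ γ, (ρ γ).trace = f γ) ∧ IsLFunction M ι ρ ℓ ∧
    ∃ Ω, IsPeriod M ι c ρ ((-1) ^ m) Ω ∧ ∀ τ, w τ = pw d m (Fintype.card n) * Ω τ

variable {M ι c m}

theorem Rl.add {f f' : (QA ≃ₐ[ℚ] QA) → E'} {ℓ ℓ' : (E' →+* QA) → ℂ → ℂ} {w w' : (E' →+* QA) → ℂ}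
    (h : Rl M ι c m f ℓ w) (h' : Rl M ι c m f' ℓ' w') :
    Rl M ι c m (fun γ => f γ + f' γ) (fun τ s => ℓ τ s * ℓ' τ s) (fun τ => w τ * w' τ) := by
  obtain ⟨n, i1, i2, ρ, h1, h2, h3, Ω, h4, h5⟩ := h
  obtain ⟨n', i1', i2', ρ', h1', h2', h3', Ω', h4', h5'⟩ := h'
  refine ⟨n ⊕ n', inferInstance, inferInstance, dsum ρ ρ', finite_dsum h1 h1', fun γ => ?_,
    isL_mul lsum M ι ρ ρ' h3 h3', fun τ => Ω τ * Ω' τ,
    psum E d M ι c E' n n' ρ ρ' _ Ω Ω' h4 h4', fun τ => ?_⟩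
  · rw [trace_dsum, h2, h2']
  · beta_reduce
    rw [Fintype.card_sum, pw_add, h5, h5']
    ring

theorem Rl.congr_f {f f' : (QA ≃ₐ[ℚ] QA) → E'} {ℓ : (E' →+* QA) → ℂ → ℂ} {w : (E' →+* QA) → ℂ}
    (h : Rl M ι c m f ℓ w) (hf : ∀ γ, f γ = f' γ) : Rl M ι c m f' ℓ w := by
  have : f = f' := funext hf
  rwa [← this]

theorem Rl.congr_l {f : (QA ≃ₐ[ℚ] QA) → E'} {ℓ ℓ' : (E' →+* QA) → ℂ → ℂ} {w w' : (E' →+* QA) → ℂ}
    (h : Rl M ι c m f ℓ w) (hl : ∀ τ s, ℓ τ s = ℓ' τ s) (hw : ∀ τ, w τ = w' τ) :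
    Rl M ι c m f ℓ' w' := by
  have h1 : ℓ = ℓ' := funext fun τ => funext fun s => hl τ s
  have h2 : w = w' := funext hw
  rwa [← h1, ← h2]

/-- the empty representation -/
theorem Rl.zero : Rl M ι c m (fun _ => (0 : E')) (fun _ _ => 1) (fun _ => 1) := by
  let ρ : (QA ≃ₐ[ℚ] QA) →* Matrix Empty Empty E' := 1
  refine ⟨Empty, inferInstance, inferInstance, ρ, ⟨⊥, inferInstance, bot_le, fun _ _ => rfl⟩,
    fun γ => by simp [Matrix.trace], ⟨fun _ => 1, fun p j hj => ?_, fun τ => ⟨?_, 0, fun s _ => ?_⟩⟩,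
    fun _ => 1, ⟨1, fun b => b.elim, fun _ => 1, ⟨?_, ?_⟩, ⟨fun τ => ?_, fun γ τ => ?_⟩,
      fun τ => ?_⟩, fun τ => ?_⟩
  · have hs : Subsingleton (fixedBy (twist M ρ p j) (M.inertia p)) := by
      refine ⟨fun a b => Subtype.ext (funext fun x => x.2.elim)⟩
    refine ⟨0, fun v => funext fun x => x.2.elim, ?_⟩
    rw [Polynomial.map_one]
    have h1 : LinearMap.charpoly (0 : Module.End KK
        (fixedBy (twist M ρ p j) (M.inertia p))) = 1 := by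
      rw [← (LinearMap.charpoly_monic _).natDegree_eq_zero, LinearMap.charpoly_natDegree]
      exact Module.finrank_zero_of_subsingleton
    rw [h1, ← Polynomial.C_1, Polynomial.reverse_C]
  · exact fun z _ => MeromorphicAt.const 1 z
  · simp only [Polynomial.map_one, Polynomial.eval_one, inv_one]
    exact hasProd_one
  · simp
  · ext b
    exact b.elim
  · simp
  · ext b
    exact b.elim
  · rw [Matrix.det_isEmpty]
  · simp [pw]

end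

section

variable {E : Type} [Field E] {d : ℕ} {M : Motive QA KK E d} {ι : QA →+* ℂ} {c : (QA ≃ₐ[ℚ] QA)} {m : ℤ}
  {E' : Type} [Field E'] [NumberField E'] [Algebra E E'] [Algebra.IsAlgebraic E E']

/-- uniqueness -/
theorem Rl.unique {f : (QA ≃ₐ[ℚ] QA) → E'} {ℓ ℓ' : (E' →+* QA) → ℂ → ℂ} {w w' : (E' →+* QA) → ℂ}
    (h : Rl M ι c m f ℓ w) (h' : Rl M ι c m f ℓ' w') :
    (∀ (τ : E' →+* QA) (z : ℂ), ∀ᶠ s in 𝓝[≠] z, ℓ τ s = ℓ' τ s) ∧
    ∃ e : E', e ≠ 0 ∧ ∀ τ, w τ = ι (τ e) * w' τ := by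
  obtain ⟨n, i1, i2, ρ, h1, h2, h3, Ω, h4, h5⟩ := h
  obtain ⟨n', i1', i2', ρ', h1', h2', h3', Ω', h4', h5'⟩ := h'
  obtain ⟨A, B, hAB, hBA, hA⟩ := iso E' ⊤ n n' ρ ρ' h1 h1' fun γ => by rw [h2, h2']
  have hcard : Fintype.card n = Fintype.card n' := by
    have h6 := h2 1
    have h7 := h2' 1
    rw [map_one, trace_one] at h6 h7
    have : (Fintype.card n : E') = (Fintype.card n' : E') := by rw [h6, h7]
    exact_mod_cast this
  constructor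
  · obtain ⟨Q, hQ, hP⟩ := h3
    obtain ⟨Q', hQ', hP'⟩ := h3'
    have hQA : Q = Q' := by
      funext p
      exact luni E d M E' n ρ p _ _ (hQ p) (liso E d M E' n n' ρ ρ' A B hAB hBA hA p _ (hQ' p))
    subst hQA
    intro τ z
    obtain ⟨m1, b, hb⟩ := hP τ
    obtain ⟨m2, b', hb'⟩ := hP' τ
    exact mero_identity m1 m2 (max b b') (fun s hs =>
      (hb s (lt_of_le_of_lt (le_max_left _ _) hs)).unique
        (hb' s (lt_of_le_of_lt (le_max_right _ _) hs))) z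
  · have h6 := piso E d M ι c E' n n' ρ ρ' A B hAB hBA hA _ Ω' h4'
    obtain ⟨e, he, h7⟩ := puni E d M ι c E' n ρ _ Ω Ω' h4 h6
    refine ⟨e, he, fun τ => ?_⟩
    rw [h5, h5', h7, hcard]
    ring

omit [NumberField E'] [Algebra.IsAlgebraic E E'] in
theorem Rl.ne_zero {f : (QA ≃ₐ[ℚ] QA) → E'} {ℓ : (E' →+* QA) → ℂ → ℂ} {w : (E' →+* QA) → ℂ}
    (h : Rl M ι c m f ℓ w) (τ : E' →+* QA) : w τ ≠ 0 := by
  obtain ⟨n, i1, i2, ρ, h1, h2, h3, Ω, h4, h5⟩ := h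
  rw [h5]
  exact mul_ne_zero (pw_ne _ _ _) (pne E d M ι c E' n ρ _ Ω h4 τ)

omit [NumberField E'] [Algebra.IsAlgebraic E E'] in
theorem Rl.mero {f : (QA ≃ₐ[ℚ] QA) → E'} {ℓ : (E' →+* QA) → ℂ → ℂ} {w : (E' →+* QA) → ℂ}
    (h : Rl M ι c m f ℓ w) (τ : E' →+* QA) : MeromorphicOn (ℓ τ) Set.univ := by
  obtain ⟨n, i1, i2, ρ, h1, h2, ⟨Q, hQ, h3⟩, Ω, h4, h5⟩ := h
  exact (h3 τ).1

end

end Pool.Agent.Helper61K9.CW
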