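import Pool.Agent.Helper61K9.CW.Base
import Pool.Agent.Helper61K9.CW.Emb
import Pool.Agent.Helper61K9.CV.Brg
import Pool.Agent.Helper8K9.DG.Chr
import Pool.Agent.R389.SmallMain

/-!
# From the monomial representations to functions attached to the irreducible characters
-/

set_option autoImplicit false
set_option linter.unusedSectionVars false

namespace Pool.Agent.Helper61K9.CW

open Pool.Agent.Helper61K9.CV

variable {QA : Type} [Field QA] [CharZero QA] [IsAlgClosed QA] [Algebra.IsAlgebraic ℚ QA]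
  {KK : Type} [Field KK] [IsAlgClosed KK]

open Matrix Polynomial Filter Topology NumberField Pool.Agent.Helper8K9.DG Pool.Agent.R389
  Pool.Agent.H541R3.ART

/-- extensions of solvable groups -/
theorem sol_sup {G : Type} [Group G] (C U : Subgroup G) [C.Normal] (hC : Group.IsSolvable C)
    (hU : Group.IsSolvable U) : Group.IsSolvable (C ⊔ U : Subgroup G) := by
  let q : G →* G ⧸ C := QuotientGroup.mk' C
  have h1 : Group.IsSolvable (U.map q) :=
    Group.isSolvable_of_surjective (f := q.subgroupMap U) (q.subgroupMap_surjective U)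
  have h2 : ∀ x : (C ⊔ U : Subgroup G), q x ∈ U.map q := by
    intro x
    have h3 : q x ∈ (C ⊔ U).map q := ⟨x, x.2, rfl⟩
    rw [Subgroup.map_sup] at h3
    have h4 : C.map q = ⊥ := by
      rw [eq_bot_iff]
      rintro _ ⟨y, hy, rfl⟩
      exact (QuotientGroup.eq_one_iff y).mpr hy
    rwa [h4, bot_sup_eq] at h3
  let g : (C ⊔ U : Subgroup G) →* U.map q :=
    (q.comp (C ⊔ U : Subgroup G).subtype).codRestrict (U.map q) h2
  let f : C →* (C ⊔ U : Subgroup G) := Subgroup.inclusion le_sup_left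
  refine Group.isSolvable_of_ker_le_range f g ?_
  intro x hx
  have h3 : q (x : G) = 1 := congrArg Subtype.val (MonoidHom.mem_ker.mp hx)
  exact ⟨⟨x, (QuotientGroup.eq_one_iff (x : G)).mp h3⟩, rfl⟩

section

variable {E : Type} [Field E] {d : ℕ} {M : Motive QA KK E d} {ι : QA →+* ℂ} {c : (QA ≃ₐ[ℚ] QA)} {m m' : ℤ}
  {E' : Type} [Field E'] [NumberField E'] [Algebra E E'] [Algebra.IsAlgebraic E E']
  {G : Type} [Group G] [Finite G] {π : (QA ≃ₐ[ℚ] QA) →* G}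

/-- the fixed field of `U` is solvable over a totally real field -/
def Over (c : (QA ≃ₐ[ℚ] QA)) (π : (QA ≃ₐ[ℚ] QA) →* G) (U : Subgroup G) : Prop :=
  ∀ K : IntermediateField ℚ QA, K.fixingSubgroup = U.comap π → IsSolvableOverReal c K

theorem over_solvable (hπ : IsFinite ⊤ π) (hsol : Group.IsSolvable (Subgroup.normalClosure {π c}))
    {U : Subgroup G} (hU : Group.IsSolvable U) : Over c π U := by
  intro K hK
  have hC : (Subgroup.normalClosure {π c}).Normal := Subgroup.normalClosure_normal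
  exact solvable_over cor c hπ (Subgroup.normalClosure {π c})
    (Subgroup.normalClosure {π c} ⊔ U) U
    (Subgroup.subset_normalClosure (Set.mem_singleton _)) le_sup_left le_sup_right
    (sol_sup _ _ hsol hU) K hK

open Classical in
/-- the monomial representations -/
theorem mon_sys (hcc : c * c = 1) (hab : AbelianTwists M ι c m') (hSP : SamePeriods M ι c m m')
    {χ₀ : (QA ≃ₐ[ℚ] QA) →* ℤˣ} (hχ : IsFinite ⊤ χ₀) (hχc : χ₀ c = -1)
    (hD : ∀ (K : IntermediateField ℚ QA) [FiniteDimensional ℚ K], IsSolvableOverReal c K →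
      ∀ ψ : K.fixingSubgroup →* E'ˣ, IsFiniteOver K ψ → DeligneConjecture M ι c m' (induced K ψ))
    (hπs : Function.Surjective π) (hπ : IsFinite ⊤ π) (i : Ix G E') (hi : Over c π i.1) :
    ∃ (ℓ : (E' →+* QA) → ℂ → ℂ) (w : (E' →+* QA) → ℂ),
      Rl M ι c m (mc π i) ℓ w ∧ (∀ τ z, meromorphicOrderAt (ℓ τ) z ≠ ⊤) ∧
      ∃ e : E', ∀ τ, Tendsto (ℓ τ) (𝓝[≠] (m : ℂ)) (𝓝 (ι (τ e) * w τ)) := by
  classical
  obtain ⟨K, hKf, -, hK⟩ := cor ⊤ G π hπ i.1
  have hso := hi K hK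
  obtain ⟨ℓ, w, h1, h2⟩ := mon_ind hcc hab hSP hχ hχc (hD K hso) hso (pull_finite hπ hK i.2)
  refine ⟨ℓ, w, h1.congr_f fun γ => ?_, h2⟩
  exact Pool.Agent.Helper8K9.DG.chr E' G π hπs i.1 K hK i.2 γ

open Classical in
/-- **The transfer principle** -/
theorem transfer (hcc : c * c = 1) (hab : AbelianTwists M ι c m') (hSP : SamePeriods M ι c m m')
    {χ₀ : (QA ≃ₐ[ℚ] QA) →* ℤˣ} (hχ : IsFinite ⊤ χ₀) (hχc : χ₀ c = -1)
    (hD : ∀ (K : IntermediateField ℚ QA) [FiniteDimensional ℚ K], IsSolvableOverReal c K →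
      ∀ ψ : K.fixingSubgroup →* E'ˣ, IsFiniteOver K ψ → DeligneConjecture M ι c m' (induced K ψ))
    (hπs : Function.Surjective π) (hπ : IsFinite ⊤ π)
    (hsol : Group.IsSolvable (Subgroup.normalClosure {π c})) {ζ : E'}
    (hζ : IsPrimitiveRoot ζ (Monoid.exponent G)) :
    ∃ (L : (E' →+* ℂ) → (G → ℂ) → ℂ → ℂ) (P : (E' →+* ℂ) → (G → ℂ) → ℂ),
      (∀ τ, ∀ χ ∈ Irr G, MeromorphicAt (L τ χ) (m : ℂ) ∧ meromorphicOrderAt (L τ χ) (m : ℂ) ≠ ⊤) ∧
      (∀ τ, ∀ χ ∈ Irr G, P τ χ ≠ 0) ∧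
      (∀ (U : Subgroup G) (ψ : U →* E'ˣ), Over c π U →
        Deligne L P (m : ℂ) (ind U (fun u => ((ψ u : E'ˣ) : E')))) ∧
      ∀ (f : G → E') (ℓ : (E' →+* QA) → ℂ → ℂ) (w : (E' →+* QA) → ℂ),
        Rl M ι c m (fun γ => f (π γ)) ℓ w → (∃ τ : E' →+* ℂ, (fun g => τ (f g)) ∈
          AddSubgroup.closure (Irr G)) →
        (∀ (τ : E' →+* ℂ) (k : (G → ℂ) → ℕ), IsDecomp (fun g => τ (f g)) k →
          ∀ᶠ s in 𝓝[≠] (m : ℂ), ∏ᶠ χ ∈ Irr G, L τ χ s ^ k χ = ℓ (down ι τ) s) ∧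
        ∃ e : E', e ≠ 0 ∧ ∀ (τ : E' →+* ℂ) (k : (G → ℂ) → ℕ), IsDecomp (fun g => τ (f g)) k →
          ∏ᶠ χ ∈ Irr G, P τ χ ^ k χ = τ e * w (down ι τ) := by
  classical
  have hsys := mon_sys (m := m) hcc hab hSP hχ hχc hD hπs hπ
  let ℓ₀ : Ix G E' → (E' →+* QA) → ℂ → ℂ := fun i =>
    if h : Over c π i.1 then (hsys i h).choose else fun _ _ => 1
  let w₀ : Ix G E' → (E' →+* QA) → ℂ := fun i =>
    if h : Over c π i.1 then (hsys i h).choose_spec.choose else fun _ => 1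
  have hs : ∀ i : Ix G E', Over c π i.1 → Rl M ι c m (mc π i) (ℓ₀ i) (w₀ i) ∧
      (∀ τ z, meromorphicOrderAt (ℓ₀ i τ) z ≠ ⊤) ∧
      ∃ e : E', ∀ τ, Tendsto (ℓ₀ i τ) (𝓝[≠] (m : ℂ)) (𝓝 (ι (τ e) * w₀ i τ)) := by
    intro i h
    simp only [ℓ₀, w₀, dif_pos h]
    exact (hsys i h).choose_spec.choose_spec
  have hTame : ∀ U : Subgroup G, Tame U → Over c π U := fun U h =>
    over_solvable hπ hsol h.solvable
  have hdown : ∀ (τ : E' →+* ℂ) (e : E'), ι (down ι τ e) = τ e := fun τ e => down_apply ι τ e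
  obtain ⟨L, P, hL, hP, hmon, hmain⟩ := brg BrgL.gen G E' ζ hζ (fun U => Over c π U) hTame
    (m : ℂ) (fun i τ => ℓ₀ i (down ι τ)) (fun i τ => w₀ i (down ι τ))
    (fun i hi τ => ⟨((hs i hi).1.mero _) _ (Set.mem_univ _), (hs i hi).2.1 _ _⟩)
    (fun i hi τ => (hs i hi).1.ne_zero _)
    (fun a ha h0 => by
      obtain ⟨h1, e, he, h2⟩ := rl_chr (M := M) (ι := ι) (c := c) (m := m) π (m : ℂ) a
        (fun i hi => (hs i (ha i hi)).1) (fun i hi τ => (hs i (ha i hi)).2.1 τ _)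
        (Rl.zero (M := M) (ι := ι) (c := c) (m := m) (E' := E')) (fun γ => by rw [h0]; rfl)
      refine ⟨fun τ => ?_, e⁻¹, inv_ne_zero he, fun τ => ?_⟩
      · filter_upwards [h1 (down ι τ)] with s hs1
        exact hs1.symm
      · have h3 := h2 (down ι τ)
        rw [hdown] at h3
        rw [map_inv₀]
        have h4 : τ e ≠ 0 := by rw [_root_.map_ne_zero]; exact he
        exact (inv_eq_of_mul_eq_one_right h3.symm).symm)
    (fun i hi => by
      obtain ⟨e, he⟩ := (hs i hi).2.2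
      refine ⟨e, fun τ => ?_⟩
      have := he (down ι τ)
      rw [hdown] at this
      exact this)
  refine ⟨L, P, hL, hP, fun U ψ hU => hmon U ψ hU, fun f ℓ w hf hv => ?_⟩
  obtain ⟨τ₁, hv⟩ := hv
  obtain ⟨a, ha, haf⟩ := BrgL.gen G E' ζ hζ f τ₁ hv
  have ha' : ∀ i ∈ a.support, Over c π i.1 := fun i hi =>
    hTame _ (Or.inr (ha i hi))
  obtain ⟨h1, e, he, h2⟩ := rl_chr (M := M) (ι := ι) (c := c) (m := m) π (m : ℂ) a
    (fun i hi => (hs i (ha' i hi)).1) (fun i hi τ => (hs i (ha' i hi)).2.1 τ _) hf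
    (fun γ => by rw [haf])
  obtain ⟨h3, e', he', h4⟩ := hmain a ha'
  rw [haf] at h3 h4
  refine ⟨fun τ k hk => ?_, e' / e, div_ne_zero he' he, fun τ k hk => ?_⟩
  · filter_upwards [h3 τ k hk, h1 (down ι τ)] with s hs1 hs2
    rw [hs1, hs2]
  · rw [h4 τ k hk, h2 (down ι τ), hdown, map_div₀]
    have h5 : τ e ≠ 0 := by rw [_root_.map_ne_zero]; exact he
    field_simp

end

end Pool.Agent.Helper61K9.CW
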